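import Pool.Agent.Y472.C.Defs

/-!
# Critical points with parameters: tools (job CB3-CR)
-/

set_option autoImplicit false

namespace Pool.Agent.Y784.CB

open Finset Filter Topology Metric
open Pool.Agent.W711.HT Pool.Agent.Y472
open scoped Real

/-! ### Fixed points depending on a parameter -/

theorem fp_deriv {E : Type*} [NormedAddCommGroup E] [NormedSpace ℂ E] [CompleteSpace E]
    {y p : ℂ → E} {G : E → E} {G' : E →L[ℂ] E} {p' : E} {w₀ : ℂ} {C : ℝ}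
    (hfix : ∀ᶠ w in 𝓝 w₀, y w = G (y w) + p w) (hG : HasFDerivAt G G' (y w₀))
    (hp : HasDerivAt p p' w₀) (hn : ‖G'‖ ≤ 1 / 2)
    (hlip : ∀ᶠ w in 𝓝 w₀, ‖y w - y w₀‖ ≤ C * ‖w - w₀‖) :
    ∃ ζ : E, HasDerivAt y ζ w₀ ∧ ζ = G' ζ + p' := by
  have hlt : ‖G'‖ < 1 := by linarith
  set A : (E →L[ℂ] E)ˣ := Units.oneSub G' hlt with hA
  set ζ : E := (↑A⁻¹ : E →L[ℂ] E) p' with hζ
  have hAz : ζ - G' ζ = p' := by
    have h1 : (↑A : E →L[ℂ] E) ζ = p' := by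
      rw [hζ, ← ContinuousLinearMap.mul_apply, Units.mul_inv]
      rfl
    have h2 : (↑A : E →L[ℂ] E) = 1 - G' := Units.val_oneSub G' hlt
    rw [h2] at h1
    simpa using h1
  refine ⟨ζ, ?_, by rw [← hAz]; abel⟩
  rw [hasDerivAt_iff_isLittleO]
  have hO : (fun w => y w - y w₀) =O[𝓝 w₀] fun w => w - w₀ := Asymptotics.IsBigO.of_bound C hlip
  have hcont : Tendsto y (𝓝 w₀) (𝓝 (y w₀)) := by
    have h1 : Tendsto (fun w => y w - y w₀) (𝓝 w₀) (𝓝 0) := by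
      refine hO.trans_tendsto ?_
      have : Tendsto (fun w : ℂ => w - w₀) (𝓝 w₀) (𝓝 (w₀ - w₀)) :=
        (continuous_id.sub continuous_const).tendsto w₀
      simpa using this
    have h2 := h1.add_const (y w₀)
    simpa using h2
  have e1 : (fun w => G (y w) - G (y w₀) - G' (y w - y w₀)) =o[𝓝 w₀] fun w => w - w₀ :=
    (hG.isLittleO.comp_tendsto hcont).trans_isBigO hO
  have e2 : (fun w => p w - p w₀ - (w - w₀) • p') =o[𝓝 w₀] fun w => w - w₀ :=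
    hasDerivAt_iff_isLittleO.1 hp
  have e3 := e1.add e2
  refine Asymptotics.IsBigO.trans_isLittleO (Asymptotics.IsBigO.of_bound 2 ?_) e3
  have h0 := hfix.self_of_nhds
  filter_upwards [hfix] with w hw
  set r : E := y w - y w₀ - (w - w₀) • ζ with hr
  have h1 : G (y w) - G (y w₀) - G' (y w - y w₀) + (p w - p w₀ - (w - w₀) • p') = r - G' r := by
    have h2 : G (y w) = y w - p w := eq_sub_of_add_eq hw.symm
    have h3 : G (y w₀) = y w₀ - p w₀ := eq_sub_of_add_eq h0.symm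
    rw [h2, h3, hr, ← hAz]
    simp only [map_sub, map_smul, smul_sub]
    abel
  rw [h1]
  have h4 : ‖G' r‖ ≤ 1 / 2 * ‖r‖ :=
    (G'.le_opNorm r).trans (mul_le_mul_of_nonneg_right hn (norm_nonneg _))
  have h5 : ‖r‖ - ‖G' r‖ ≤ ‖r - G' r‖ := norm_sub_norm_le _ _
  linarith

/-! ### Boxes -/

theorem Rc_eq (ρ τ : ℝ) : Rc ρ τ = Set.Ioo (-ρ) ρ ×ℂ Set.Ioo (-τ) τ := by
  ext z
  simp only [Rc, Set.mem_setOf_eq, Complex.mem_reProdIm, Set.mem_Ioo, abs_lt]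

theorem Rc_open (ρ τ : ℝ) : IsOpen (Rc ρ τ) := by
  rw [Rc_eq]
  exact isOpen_Ioo.reProdIm isOpen_Ioo

theorem Rc_convex (ρ τ : ℝ) : Convex ℝ (Rc ρ τ) := by
  have h : Rc ρ τ = Complex.reLm ⁻¹' Set.Ioo (-ρ) ρ ∩ Complex.imLm ⁻¹' Set.Ioo (-τ) τ := by
    ext z
    simp only [Rc, Set.mem_setOf_eq, Set.mem_inter_iff, Set.mem_preimage, Set.mem_Ioo, abs_lt]
    rfl
  rw [h]
  exact ((convex_Ioo _ _).linear_preimage _).inter ((convex_Ioo _ _).linear_preimage _)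

theorem bx_eq (L : ℕ) (R : ℝ) : bx L R = Set.pi Set.univ fun _ => Rc R R := by
  ext x
  simp [bx]

theorem bx_open (L : ℕ) (R : ℝ) : IsOpen (bx L R) := by
  rw [bx_eq]
  exact isOpen_set_pi Set.finite_univ fun _ _ => Rc_open R R

theorem bx_convex (L : ℕ) (R : ℝ) : Convex ℝ (bx L R) := by
  rw [bx_eq]
  exact convex_pi fun _ _ => Rc_convex R R

theorem Rc_add {R : ℝ} {z w : ℂ} (hz : z ∈ Rc (R / 2) (R / 2)) (hw : ‖w‖ ≤ R / 2) :
    z + w ∈ Rc R R := by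
  have h1 := Complex.abs_re_le_norm w
  have h2 := Complex.abs_im_le_norm w
  have h3 := abs_add_le z.re w.re
  have h4 := abs_add_le z.im w.im
  refine ⟨?_, ?_⟩
  · show |(z + w).re| < R
    rw [Complex.add_re]
    linarith [hz.1]
  · show |(z + w).im| < R
    rw [Complex.add_im]
    linarith [hz.2]

theorem Rc_norm {R : ℝ} {z : ℂ} (h : ‖z‖ < R) : z ∈ Rc R R :=
  ⟨(Complex.abs_re_le_norm z).trans_lt h, (Complex.abs_im_le_norm z).trans_lt h⟩

theorem Rc_mono {R R' : ℝ} (h : R ≤ R') : Rc R R ⊆ Rc R' R' := fun z hz =>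
  ⟨hz.1.trans_le h, hz.2.trans_le h⟩

theorem Rc_neg {R : ℝ} {z : ℂ} (h : z ∈ Rc R R) : -z ∈ Rc R R := by
  refine ⟨?_, ?_⟩
  · show |(-z).re| < R
    rw [Complex.neg_re, abs_neg]; exact h.1
  · show |(-z).im| < R
    rw [Complex.neg_im, abs_neg]; exact h.2

/-- The restriction to the first variables. -/
def rs (L : ℕ) (ψ : ℕ → ℂ) : Fin L → ℂ := fun i => ψ i

theorem rs_ex (L : ℕ) (x : Fin L → ℂ) : rs L (ex L x) = x := by
  funext i
  simp [rs, ex]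

theorem ex_rs {L : ℕ} (ψ : ℕ → ℂ) {i : ℕ} (hi : i < L) : ex L (rs L ψ) i = ψ i := by
  simp [rs, ex, hi]

theorem ex_mem {L : ℕ} {R : ℝ} {x : Fin L → ℂ} (hx : x ∈ bx L R) : ex L x ∈ Bx L R := by
  intro i hi
  have := hx ⟨i, hi⟩
  simp only [ex, hi, dif_pos]
  exact this

theorem rs_mem {L : ℕ} {R : ℝ} {ψ : ℕ → ℂ} (h : ψ ∈ Bx L R) : rs L ψ ∈ bx L R :=
  fun i => h i i.2

theorem Bx_mono {L : ℕ} {R R' : ℝ} (h : R ≤ R') : Bx L R ⊆ Bx L R' := fun _ hψ i hi =>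
  Rc_mono h (hψ i hi)

theorem rs_update {L : ℕ} (ψ : ℕ → ℂ) {i : ℕ} (hi : i < L) (w : ℂ) :
    rs L (Function.update ψ i w) = Function.update (rs L ψ) ⟨i, hi⟩ w := by
  funext k
  by_cases hk : k = ⟨i, hi⟩
  · subst hk
    simp [rs]
  · have : k.1 ≠ i := fun h => hk (Fin.ext h)
    simp [rs, Function.update_of_ne this, Function.update_of_ne hk]

theorem up_mem {L : ℕ} {R : ℝ} {ψ : ℕ → ℂ} (h : ψ ∈ Bx L R) {i : ℕ} {w : ℂ}
    (hw : w ∈ Rc R R) : Function.update ψ i w ∈ Bx L R := by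
  intro k hk
  by_cases hki : k = i
  · subst hki
    simpa using hw
  · rw [Function.update_of_ne hki]
    exact h k hk

/-! ### Cauchy estimate -/

theorem fderiv_bd {L : ℕ} {R B : ℝ} (hR : 0 < R) (hB : 0 ≤ B) {f : (Fin L → ℂ) → ℂ}
    (hf : DifferentiableOn ℂ f (bx L R)) (hb : ∀ x ∈ bx L R, ‖f x‖ ≤ B) {x : Fin L → ℂ}
    (hx : x ∈ bx L (R / 2)) : ‖fderiv ℂ f x‖ ≤ 4 * B / R := by
  have hx' : x ∈ bx L R := fun i => Rc_mono (by linarith) (hx i)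
  refine ContinuousLinearMap.opNorm_le_bound _ (by positivity) fun v => ?_
  by_cases hv : v = 0
  · subst hv; simp
  have hv0 : 0 < ‖v‖ := norm_pos_iff.2 hv
  set ρ : ℝ := R / (4 * ‖v‖) with hρ
  have hρ0 : 0 < ρ := by positivity
  have hmem : ∀ w : ℂ, w ∈ closedBall (0 : ℂ) ρ → x + w • v ∈ bx L R := by
    intro w hw i
    refine Rc_add (hx i) ?_
    show ‖(w • v) i‖ ≤ R / 2
    have h1 : ‖(w • v) i‖ ≤ ‖w • v‖ := norm_le_pi_norm (w • v) i
    rw [norm_smul] at h1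
    have h2 : ‖w‖ ≤ ρ := by simpa using hw
    have h3 : ‖w‖ * ‖v‖ ≤ ρ * ‖v‖ := mul_le_mul_of_nonneg_right h2 hv0.le
    have h4 : ρ * ‖v‖ = R / 4 := by rw [hρ]; field_simp
    linarith
  have hd : ∀ w ∈ closedBall (0 : ℂ) ρ, HasDerivAt (fun w => f (x + w • v))
      (fderiv ℂ f (x + w • v) v) w := by
    intro w hw
    have h1 : HasDerivAt (fun w : ℂ => x + w • v) v w := by
      simpa using ((hasDerivAt_id w).smul_const v).const_add x
    exact ((hf.differentiableAt ((bx_open L R).mem_nhds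
      (hmem w hw))).hasFDerivAt.comp_hasDerivAt w h1)
  have h0 : (0 : ℂ) ∈ closedBall (0 : ℂ) ρ := by simp [hρ0.le]
  have key := Complex.norm_deriv_le_of_forall_mem_sphere_norm_le (f := fun w => f (x + w • v))
    (c := 0) (C := B) hρ0 ?_ ?_
  · have e := (hd 0 h0).deriv
    rw [e] at key
    simp only [zero_smul, add_zero] at key
    refine key.trans (le_of_eq ?_)
    rw [hρ]
    field_simp
  · refine DifferentiableOn.diffContOnCl ?_
    rw [closure_ball _ hρ0.ne']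
    exact fun w hw => (hd w hw).differentiableAt.differentiableWithinAt
  · intro w hw
    exact hb _ (hmem w (sphere_subset_closedBall hw))

theorem lip_bd {L : ℕ} {R B : ℝ} (hR : 0 < R) (hB : 0 ≤ B) {f : (Fin L → ℂ) → ℂ}
    (hf : DifferentiableOn ℂ f (bx L R)) (hb : ∀ x ∈ bx L R, ‖f x‖ ≤ B) {x x' : Fin L → ℂ}
    (hx : x ∈ bx L (R / 2)) (hx' : x' ∈ bx L (R / 2)) :
    ‖f x' - f x‖ ≤ 4 * B / R * ‖x' - x‖ := by
  refine Convex.norm_image_sub_le_of_norm_fderiv_le (𝕜 := ℂ) (s := bx L (R / 2))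
    (fun y hy => ?_) (fun y hy => fderiv_bd hR hB hf hb hy) (bx_convex _ _) hx hx'
  exact hf.differentiableAt ((bx_open L R).mem_nhds fun i => Rc_mono (by linarith) (hy i))

end Pool.Agent.Y784.CB
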