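import Pool.Agent.Y784.CB.CR2

/-!
# Critical points with parameters: derivatives (job CB3-CR)
-/

set_option autoImplicit false

namespace Pool.Agent.Y784.CB

open Finset Filter Topology Metric
open Pool.Agent.W711.HT Pool.Agent.Y472
open scoped Real

/-! ### The chain rule -/

theorem part {L : ℕ} {R : ℝ} {f : (ℕ → ℂ) → ℂ}
    (hdep : ∀ ψ ψ' : ℕ → ℂ, (∀ i < L, ψ i = ψ' i) → f ψ = f ψ')
    (hf : DifferentiableOn ℂ (fun x => f (ex L x)) (bx L R)) {ψ : ℕ → ℂ} (hψ : ψ ∈ Bx L R)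
    {l : ℕ} (hl : l < L) :
    HasDerivAt (fun w => f (Function.update ψ l w))
      (fderiv ℂ (fun x => f (ex L x)) (rs L ψ) (Pi.single ⟨l, hl⟩ 1)) (ψ l) := by
  have h1 : HasFDerivAt (fun x => f (ex L x)) (fderiv ℂ (fun x => f (ex L x)) (rs L ψ))
      (rs L ψ) := (hf.differentiableAt ((bx_open L R).mem_nhds (rs_mem hψ))).hasFDerivAt
  have h2 : HasDerivAt (fun w => Function.update (rs L ψ) ⟨l, hl⟩ w) (Pi.single ⟨l, hl⟩ 1)
      (ψ l) := hasDerivAt_update (rs L ψ) ⟨l, hl⟩ (ψ l)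
  have h3 : Function.update (rs L ψ) ⟨l, hl⟩ (ψ l) = rs L ψ := Function.update_eq_self _ _
  rw [← h3] at h1
  have h4 := h1.comp_hasDerivAt (ψ l) h2
  rw [h3] at h4
  refine h4.congr_of_eventuallyEq (Eventually.of_forall fun w => ?_)
  show f (Function.update ψ l w) = f (ex L (Function.update (rs L ψ) ⟨l, hl⟩ w))
  refine hdep _ _ fun i hi => ?_
  rw [← rs_update, ex_rs _ hi]

theorem fderiv_sum {L : ℕ} (A : (Fin L → ℂ) →L[ℂ] ℂ) (v : Fin L → ℂ) :
    A v = ∑ k, v k * A (Pi.single k 1) := by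
  have h : v = ∑ k, v k • (Pi.single k (1 : ℂ) : Fin L → ℂ) := by
    funext k
    simp [Finset.sum_apply, Pi.single_apply]
  refine (congrArg A h).trans ?_
  rw [map_sum]
  exact Finset.sum_congr rfl fun k _ => by rw [map_smul, smul_eq_mul]

theorem chain {L : ℕ} {R : ℝ} {f : (ℕ → ℂ) → ℂ}
    (hdep : ∀ ψ ψ' : ℕ → ℂ, (∀ i < L, ψ i = ψ' i) → f ψ = f ψ')
    (hf : DifferentiableOn ℂ (fun x => f (ex L x)) (bx L R)) {y : ℂ → ℕ → ℂ} {w₀ : ℂ}
    (hy : y w₀ ∈ Bx L R) {ζ : ℕ → ℂ} (hd : ∀ l < L, HasDerivAt (fun w => y w l) (ζ l) w₀) :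
    HasDerivAt (fun w => f (y w))
      (∑ l ∈ range L, ζ l * deriv (fun w => f (Function.update (y w₀) l w)) (y w₀ l)) w₀ := by
  have h1 : HasFDerivAt (fun x => f (ex L x)) (fderiv ℂ (fun x => f (ex L x)) (rs L (y w₀)))
      (rs L (y w₀)) := (hf.differentiableAt ((bx_open L R).mem_nhds (rs_mem hy))).hasFDerivAt
  have h2 : HasDerivAt (fun w => rs L (y w)) (rs L ζ) w₀ :=
    hasDerivAt_pi.2 fun k => hd k k.2
  have h3 := h1.comp_hasDerivAt w₀ h2
  have h4 : fderiv ℂ (fun x => f (ex L x)) (rs L (y w₀)) (rs L ζ) =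
      ∑ l ∈ range L, ζ l * deriv (fun w => f (Function.update (y w₀) l w)) (y w₀ l) := by
    rw [fderiv_sum, ← Fin.sum_univ_eq_sum_range (fun l => ζ l *
      deriv (fun w => f (Function.update (y w₀) l w)) (y w₀ l)) L]
    refine Finset.sum_congr rfl fun k _ => ?_
    rw [(part hdep hf hy k.2).deriv]
    rfl
  rw [h4] at h3
  refine h3.congr_of_eventuallyEq (Eventually.of_forall fun w => ?_)
  show f (y w) = f (ex L (rs L (y w)))
  exact hdep _ _ fun i hi => (ex_rs _ hi).symm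

theorem part_bd {L : ℕ} {R B : ℝ} (hR : 0 < R) (hB : 0 ≤ B) {f : (ℕ → ℂ) → ℂ}
    (hdep : ∀ ψ ψ' : ℕ → ℂ, (∀ i < L, ψ i = ψ' i) → f ψ = f ψ')
    (hf : DifferentiableOn ℂ (fun x => f (ex L x)) (bx L R)) (hb : ∀ ψ ∈ Bx L R, ‖f ψ‖ ≤ B)
    {ψ : ℕ → ℂ} (hψ : ψ ∈ Bx L (R / 2)) {l : ℕ} (hl : l < L) :
    ‖deriv (fun w => f (Function.update ψ l w)) (ψ l)‖ ≤ 4 * B / R := by
  rw [(part hdep hf (Bx_mono (by linarith) hψ) hl).deriv]
  have h1 := fderiv_bd hR hB hf (fun x hx => hb _ (ex_mem hx)) (rs_mem hψ)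
  have h2 := (fderiv ℂ (fun x => f (ex L x)) (rs L ψ)).le_opNorm (Pi.single ⟨l, hl⟩ 1)
  have h3 : ‖(Pi.single ⟨l, hl⟩ 1 : Fin L → ℂ)‖ = 1 := by
    rw [Pi.norm_single, norm_one]
  rw [h3, mul_one] at h2
  exact h2.trans h1

section

variable {L : ℕ} {R c B p₀ : ℝ} {S : (ℕ → ℂ) → ℂ} {D : ℕ → (ℕ → ℂ) → ℂ}

/-! ### Symmetry -/

theorem D_zero (hP : Pot L R c B p₀ S D) {ψ : ℕ → ℂ} (hψ : ψ ∈ Bx L R) {i : ℕ} (hi : i < L)
    (h0 : ψ i = 0) : D i ψ = 0 := by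
  have h1 := hP.der ψ hψ i hi
  rw [h0] at h1
  have h2 : HasDerivAt (fun w => S (Function.update ψ i (-w))) (-D i ψ) 0 := by
    have h3 : HasDerivAt (fun w : ℂ => -w) (-1) 0 := (hasDerivAt_id (0 : ℂ)).neg
    have h4 : HasDerivAt (fun w => S (Function.update ψ i w)) (D i ψ) (-0) := by
      rw [neg_zero]; exact h1
    have h5 := h4.comp (0 : ℂ) h3
    rw [mul_neg_one] at h5
    exact h5
  have h3 : (fun w => S (Function.update ψ i (-w))) =ᶠ[𝓝 0] fun w => S (Function.update ψ i w) := by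
    have h0m : (0 : ℂ) ∈ Rc R R := by rw [← h0]; exact hψ i hi
    filter_upwards [(Rc_open R R).mem_nhds h0m] with w hw
    have h4 := hP.ev _ (up_mem hψ hw (i := i)) i hi
    simpa using h4
  have h4 := (h2.congr_of_eventuallyEq h3.symm).unique h1
  have h5 : 2 * D i ψ = 0 := by linear_combination -h4
  simpa using h5

theorem D_ev (hP : Pot L R c B p₀ S D) {ψ : ℕ → ℂ} (hψ : ψ ∈ Bx L R) {i l : ℕ} (hi : i < L)
    (hl : l < L) (hil : l ≠ i) : D l (Function.update ψ i (-ψ i)) = D l ψ := by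
  have h0 : Function.update ψ i (-ψ i) ∈ Bx L R := up_mem hψ (Rc_neg (hψ i hi))
  have h1 := hP.der _ h0 l hl
  have h2 := hP.der ψ hψ l hl
  rw [Function.update_of_ne hil] at h1
  refine (h1.congr_of_eventuallyEq ?_).unique h2
  filter_upwards [(Rc_open R R).mem_nhds (hψ l hl)] with w hw
  have h4 := hP.ev _ (up_mem hψ hw (i := l)) i hi
  rw [Function.update_of_ne hil.symm] at h4
  rw [Function.update_comm hil] at h4
  exact h4.symm

theorem D_small (hP : Pot L R c B p₀ S D) {ψ : ℕ → ℂ} (hψ : ψ ∈ Bx L (R / 2)) {i : ℕ}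
    (hi : i < L) : ‖D i ψ‖ ≤ 4 * B / R * ‖ψ i‖ := by
  have hR := hP.hR.1
  have hB := hP.hB
  have h0 : Function.update ψ i 0 ∈ Bx L (R / 2) :=
    up_mem hψ (Rc_norm (by rw [norm_zero]; linarith))
  have h1 := D_lip hP h0 hψ hi
  rw [D_zero hP (Bx_mono (by linarith) h0) hi (by simp), sub_zero] at h1
  refine h1.trans (mul_le_mul_of_nonneg_left ?_ (by positivity))
  rw [pi_norm_le_iff_of_nonneg (norm_nonneg _)]
  intro k
  show ‖ψ k - Function.update ψ i 0 k‖ ≤ ‖ψ i‖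
  by_cases hk : k.1 = i
  · rw [hk]; simp
  · rw [Function.update_of_ne hk]; simp

/-- concavity -/
theorem D_re (hP : Pot L R c B p₀ S D) {ψ : ℕ → ℂ} (hψ : ψ ∈ Bx L (R / 2)) {i : ℕ}
    (hi : i < L) : (D i ψ * (starRingEnd ℂ) (ψ i)).re ≤ -c * ‖ψ i‖ ^ 2 := by
  have hR := hP.hR.1
  have hψR : ψ ∈ Bx L R := Bx_mono (by linarith) hψ
  set z : ℂ := ψ i with hz
  have hmem : ∀ t ∈ Set.Icc (0 : ℝ) 1, (t : ℂ) * z ∈ Rc R R := by
    intro t ht
    have h1 : |t| ≤ 1 := by rw [abs_of_nonneg ht.1]; exact ht.2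
    have h2 := (hψR i hi).1
    have h3 := (hψR i hi).2
    refine ⟨?_, ?_⟩
    · show |((t : ℂ) * z).re| < R
      rw [Complex.re_ofReal_mul, abs_mul]
      exact (mul_le_of_le_one_left (abs_nonneg _) h1).trans_lt h2
    · show |((t : ℂ) * z).im| < R
      rw [Complex.im_ofReal_mul, abs_mul]
      exact (mul_le_of_le_one_left (abs_nonneg _) h1).trans_lt h3
  set g : ℂ → ℂ := fun w => D i (Function.update ψ i w) with hg
  have hdep : ∀ ψ ψ' : ℕ → ℂ, (∀ i < L, ψ i = ψ' i) → D i ψ = D i ψ' := fun ψ ψ' h =>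
    (hP.dep ψ ψ' h).2 i
  have hgd : ∀ w ∈ Rc R R, HasDerivAt g (deriv g w) w ∧ (deriv g w).re ≤ -c := by
    intro w hw
    have h1 : Function.update ψ i w ∈ Bx L R := up_mem hψR hw
    have h2 := part hdep (hP.dan i hi) h1 hi
    have h3 := hP.conc _ h1 i hi
    simp only [Function.update_idem, Function.update_self] at h2 h3
    exact ⟨h2.differentiableAt.hasDerivAt, h3⟩
  -- the real function
  set F : ℝ → ℝ := fun t => (g (t * z) * (starRingEnd ℂ) z).re + c * ‖z‖ ^ 2 * t with hF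
  have hFd : ∀ t ∈ Set.Icc (0 : ℝ) 1, HasDerivAt F
      ((deriv g (t * z) * z * (starRingEnd ℂ) z).re + c * ‖z‖ ^ 2) t := by
    intro t ht
    have h1 := (hgd _ (hmem t ht)).1
    have h2 : HasDerivAt (fun s : ℂ => s * z) z (t : ℂ) := by
      simpa using (hasDerivAt_id (t : ℂ)).mul_const z
    have h3 : HasDerivAt (fun s : ℂ => g (s * z) * (starRingEnd ℂ) z)
        (deriv g (t * z) * z * (starRingEnd ℂ) z) (t : ℂ) := (h1.comp (t : ℂ) h2).mul_const _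
    have h4 := h3.real_of_complex
    have h5 : HasDerivAt (fun t : ℝ => c * ‖z‖ ^ 2 * t) (c * ‖z‖ ^ 2) t := by
      simpa using (hasDerivAt_id t).const_mul (c * ‖z‖ ^ 2)
    exact h4.add h5
  have hneg : ∀ t ∈ Set.Icc (0 : ℝ) 1,
      (deriv g (t * z) * z * (starRingEnd ℂ) z).re + c * ‖z‖ ^ 2 ≤ 0 := by
    intro t ht
    have h1 := (hgd _ (hmem t ht)).2
    have h2 : deriv g (t * z) * z * (starRingEnd ℂ) z = ((‖z‖ ^ 2 : ℝ) : ℂ) * deriv g (t * z) := by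
      rw [mul_assoc, Complex.mul_conj, Complex.normSq_eq_norm_sq]
      ring
    rw [h2, Complex.re_ofReal_mul]
    nlinarith [sq_nonneg ‖z‖]
  have hanti : AntitoneOn F (Set.Icc 0 1) := by
    refine antitoneOn_of_deriv_nonpos (convex_Icc 0 1)
      (fun t ht => (hFd t ht).continuousAt.continuousWithinAt) (fun t ht => ?_) fun t ht => ?_
    · rw [interior_Icc] at ht
      exact (hFd t ⟨ht.1.le, ht.2.le⟩).differentiableAt.differentiableWithinAt
    · rw [interior_Icc] at ht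
      have ht' : t ∈ Set.Icc (0 : ℝ) 1 := ⟨ht.1.le, ht.2.le⟩
      rw [(hFd t ht').deriv]
      exact hneg t ht'
  have h6 := hanti (show (0 : ℝ) ∈ Set.Icc 0 1 by norm_num)
    (show (1 : ℝ) ∈ Set.Icc 0 1 by norm_num) (by norm_num : (0 : ℝ) ≤ 1)
  have h7 : g 0 = 0 := by
    refine D_zero hP (up_mem hψR (Rc_norm ?_)) hi (by simp)
    rw [norm_zero]; exact hR
  have h8 : g z = D i ψ := by
    show D i (Function.update ψ i (ψ i)) = D i ψ
    rw [Function.update_eq_self]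
  simp only [hF, Complex.ofReal_one, one_mul, Complex.ofReal_zero, zero_mul, h7, h8,
    Complex.zero_re, mul_zero, mul_one, add_zero] at h6
  linarith

end

end Pool.Agent.Y784.CB
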