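import Pool.Agent.Y784.CB.CR3

/-!
# Critical points with parameters: the derivative of the critical configuration (job CB3-CR)
-/

set_option autoImplicit false

namespace Pool.Agent.Y784.CB

open Finset Filter Topology Metric
open Pool.Agent.W711.HT Pool.Agent.Y472
open scoped Real

section

variable {L : ℕ} {R c B p₀ : ℝ} {S : (ℕ → ℂ) → ℂ} {D : ℕ → (ℕ → ℂ) → ℂ}

theorem path_deriv (hP : Pot L R c B p₀ S D) {a : ℕ → ℤ} {j : ℕ} (hj : j ≤ L)
    (ha : ∀ i < L, 32 * π * B / R ≤ |(a i : ℝ)|) (ha0 : ∀ i < L, (a i : ℝ) ≠ 0) {ψ : ℕ → ℂ}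
    {i : ℕ} (hi : i < L) (hji : j ≤ i) {y : ℂ → ℕ → ℂ} (hy1 : ∀ᶠ w in 𝓝 (ψ i),
      (∀ k, j ≤ k → y w k = Function.update ψ i w k) ∧ y w ∈ Bx L (R / 2) ∧ Cr D a j (y w)) :
    ∃ ζ : ℕ → ℂ, (∀ l < L, HasDerivAt (fun w => y w l) (ζ l) (ψ i)) ∧
      (∀ k, j ≤ k → k < L → ζ k = if k = i then 1 else 0) ∧
      ∀ k < j, ‖ζ k‖ ≤ 16 * π * B / (R * |(a k : ℝ)|) := by
  classical
  have hR := hP.hR.1
  have hB := hP.hB
  have hπ := Real.pi_pos
  obtain ⟨h00, h01, h02⟩ := hy1.self_of_nhds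
  set x₀ : Fin L → ℂ := rs L (y (ψ i)) with hx₀
  set G : (Fin L → ℂ) → Fin L → ℂ := fun x k =>
    if k.1 < j then -(2 * π / (a k : ℝ)) * (1 - Complex.I * D k (ex L x)) else 0 with hG
  set p : ℂ → Fin L → ℂ := fun w k => if k.1 < j then 0 else Function.update ψ i w k with hp
  set G' : (Fin L → ℂ) →L[ℂ] (Fin L → ℂ) := ContinuousLinearMap.pi fun k =>
    if k.1 < j then (2 * π / (a k : ℝ) * Complex.I : ℂ) •
      fderiv ℂ (fun x => D k (ex L x)) x₀ else 0 with hG'
  have hx₀m : x₀ ∈ bx L (R / 2) := rs_mem h01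
  have hx₀R : x₀ ∈ bx L R := fun k => Rc_mono (by linarith) (hx₀m k)
  have f1 : ∀ᶠ w in 𝓝 (ψ i), rs L (y w) = G (rs L (y w)) + p w := by
    filter_upwards [hy1] with w hw
    obtain ⟨h1, -, h3⟩ := hw
    funext k
    show y w k = G (rs L (y w)) k + p w k
    by_cases hk : k.1 < j
    · simp only [hG, hp, hk, if_true, add_zero, D_rs hP]
      exact (cr_iff (ha0 k k.2)).1 (by simpa using h3 k hk)
    · simp only [hG, hp, hk, if_false, zero_add]
      exact h1 k (not_lt.1 hk)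
  have f2 : HasFDerivAt G G' x₀ := by
    rw [hasFDerivAt_pi']
    intro k
    by_cases hk : k.1 < j
    · have e1 : HasFDerivAt (fun x => D k (ex L x)) (fderiv ℂ (fun x => D k (ex L x)) x₀) x₀ :=
        ((hP.dan k k.2).differentiableAt ((bx_open L R).mem_nhds hx₀R)).hasFDerivAt
      have e2 := (e1.const_mul (2 * π / (a k : ℝ) * Complex.I : ℂ)).const_add
        (-(2 * π / (a k : ℝ)) : ℂ)
      have e3 : (ContinuousLinearMap.proj k).comp G' = (2 * π / (a k : ℝ) * Complex.I : ℂ) •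
          fderiv ℂ (fun x => D k (ex L x)) x₀ := by
        ext v
        simp [hG', hk]
      rw [e3]
      refine e2.congr_of_eventuallyEq (Eventually.of_forall fun x => ?_)
      simp only [hG, hk, if_true]
      ring
    · have e3 : (ContinuousLinearMap.proj k).comp G' = 0 := by
        ext v
        simp [hG', hk]
      rw [e3]
      refine (hasFDerivAt_const (0 : ℂ) x₀).congr_of_eventuallyEq
        (Eventually.of_forall fun x => ?_)
      simp only [hG, hk, if_false]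
  set p' : Fin L → ℂ := fun k => if k.1 = i then 1 else 0 with hp'
  have f3 : HasDerivAt p p' (ψ i) := by
    rw [hasDerivAt_pi]
    intro k
    by_cases hk : k.1 = i
    · have e : ∀ w, p w k = w := by
        intro w
        simp only [hp, hk, not_lt.2 hji, if_false, Function.update_self]
      simp only [e, hp', hk, if_true]
      exact hasDerivAt_id _
    · have e : ∀ w, p w k = if k.1 < j then 0 else ψ k := by
        intro w
        simp only [hp, Function.update_of_ne hk]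
      simp only [e, hp', hk, if_false]
      exact hasDerivAt_const _ _
  have fk : ∀ (k : Fin L) (v : Fin L → ℂ), k.1 < j →
      ‖G' v k‖ ≤ 8 * π * B / (R * |(a k : ℝ)|) * ‖v‖ := by
    intro k v hk
    have e1 : G' v k = (2 * π / (a k : ℝ) * Complex.I : ℂ) *
        fderiv ℂ (fun x => D k (ex L x)) x₀ v := by
      simp [hG', hk]
    have e2 := fderiv_bd hR hB.le (hP.dan k k.2) (fun x hx => (hP.bd _ (ex_mem hx)).2 k k.2) hx₀m
    have e3 := (fderiv ℂ (fun x => D k (ex L x)) x₀).le_opNorm v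
    rw [e1, norm_mul, norm_mul, Complex.norm_I, mul_one, norm_coef]
    have habs : 0 < |(a k : ℝ)| := abs_pos.2 (ha0 k k.2)
    calc 2 * π / |(a k : ℝ)| * ‖fderiv ℂ (fun x => D k (ex L x)) x₀ v‖
        ≤ 2 * π / |(a k : ℝ)| * (4 * B / R * ‖v‖) := by
          refine mul_le_mul_of_nonneg_left (e3.trans ?_) (by positivity)
          exact mul_le_mul_of_nonneg_right e2 (norm_nonneg _)
      _ = 8 * π * B / (R * |(a k : ℝ)|) * ‖v‖ := by field_simp; ring
  have f4 : ‖G'‖ ≤ 1 / 2 := by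
    refine ContinuousLinearMap.opNorm_le_bound _ (by norm_num) fun v => ?_
    rw [pi_norm_le_iff_of_nonneg (by positivity)]
    intro k
    by_cases hk : k.1 < j
    · refine (fk k v hk).trans (mul_le_mul_of_nonneg_right ?_ (norm_nonneg _))
      have habs : 0 < |(a k : ℝ)| := abs_pos.2 (ha0 k k.2)
      have h3 := ha k k.2
      rw [div_le_iff₀ hR] at h3
      rw [div_le_iff₀ (by positivity)]
      nlinarith
    · have : G' v k = 0 := by simp [hG', hk]
      rw [this, norm_zero]; positivity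
  have f5 : ∀ᶠ w in 𝓝 (ψ i), ‖rs L (y w) - rs L (y (ψ i))‖ ≤ 1 * ‖w - ψ i‖ := by
    filter_upwards [hy1] with w hw
    obtain ⟨h1, h2, h3⟩ := hw
    rw [one_mul]
    refine (crit_diff hP hj ha ha0 h01 h2 h02 h3 (norm_nonneg _) fun k hk hkL => ?_).1
    rw [h1 k hk, h00 k hk, Function.update_eq_self]
    by_cases hki : k = i
    · subst hki
      rw [Function.update_self]
    · rw [Function.update_of_ne hki, sub_self, norm_zero]
      exact norm_nonneg _
  obtain ⟨ζ, hζ1, hζ2⟩ := fp_deriv (y := fun w => rs L (y w)) (G := G) (p := p) f1 f2 f3 f4 f5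
  have hζn : ‖ζ‖ ≤ 2 := by
    have e1 : ‖ζ‖ ≤ ‖G' ζ‖ + ‖p'‖ := by
      conv_lhs => rw [hζ2]
      exact norm_add_le _ _
    have e2 : ‖G' ζ‖ ≤ 1 / 2 * ‖ζ‖ := (G'.le_opNorm ζ).trans
      (mul_le_mul_of_nonneg_right f4 (norm_nonneg _))
    have e3 : ‖p'‖ ≤ 1 := by
      rw [pi_norm_le_iff_of_nonneg (by norm_num)]
      intro k
      by_cases hk : k.1 = i
      · simp [hp', hk]
      · simp [hp', hk]
    linarith
  refine ⟨fun k => if h : k < L then ζ ⟨k, h⟩ else 0, fun l hl => ?_, fun k hk hkL => ?_,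
    fun k hk => ?_⟩
  · simp only [hl, dif_pos]
    exact hasDerivAt_pi.1 hζ1 ⟨l, hl⟩
  · simp only [hkL, dif_pos]
    have e1 := congrFun hζ2 ⟨k, hkL⟩
    have e2 : G' ζ ⟨k, hkL⟩ = 0 := by simp [hG', not_lt.2 hk]
    rw [e1, Pi.add_apply, e2, zero_add]
  · have hkL := hk.trans_le hj
    simp only [hkL, dif_pos]
    have e1 := congrFun hζ2 ⟨k, hkL⟩
    have e2 : p' ⟨k, hkL⟩ = 0 := by
      have : k ≠ i := by omega
      simp [hp', this]
    rw [e1, Pi.add_apply, e2, add_zero]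
    refine (fk ⟨k, hkL⟩ ζ hk).trans ?_
    have habs : 0 < |(a k : ℝ)| := abs_pos.2 (ha0 k hkL)
    calc 8 * π * B / (R * |(a k : ℝ)|) * ‖ζ‖ ≤ 8 * π * B / (R * |(a k : ℝ)|) * 2 :=
          mul_le_mul_of_nonneg_left hζn (by positivity)
      _ = 16 * π * B / (R * |(a k : ℝ)|) := by ring

end

end Pool.Agent.Y784.CB
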